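import Mathlib

/-!
# Clifford operators

For `p : ι × Fin D` a symmetric involution `gm p` on a finite dimensional Euclidean space; two of
them anticommute if the first components agree and commute otherwise.
-/

namespace MP051125H69

open Finset

variable (ι : Type*) [Fintype ι] [DecidableEq ι] (D : ℕ)

/-- The index set. -/
abbrev Om : Type _ := (ι × Fin D) → Bool

/-- The space. -/
abbrev HH : Type _ := EuclideanSpace ℝ (Om ι D)

variable {ι D}

/-- Flip one bit. -/
def flp (p : ι × Fin D) (ω : Om ι D) : Om ι D := Function.update ω p (!(ω p))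

/-- The sign. -/
def sgn (p : ι × Fin D) (ω : Om ι D) : ℝ :=
  ∏ r : ι × Fin D, if (r.1 = p.1 ∧ r.2 < p.2) ∧ ω r = true then -1 else 1

lemma flp_flp (p : ι × Fin D) (ω : Om ι D) : flp p (flp p ω) = ω := by
  unfold flp; simp

lemma flp_comm {p q : ι × Fin D} (h : p ≠ q) (ω : Om ι D) : flp p (flp q ω) = flp q (flp p ω) := by
  unfold flp
  rw [Function.update_of_ne h, Function.update_of_ne h.symm, Function.update_comm h]

lemma sgn_flp (p q : ι × Fin D) (ω : Om ι D) :
    sgn q (flp p ω) = (if p.1 = q.1 ∧ p.2 < q.2 then -1 else 1) * sgn q ω := by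
  unfold sgn
  have h : ∀ r : ι × Fin D, (if (r.1 = q.1 ∧ r.2 < q.2) ∧ flp p ω r = true then (-1 : ℝ) else 1) =
      (if r = p then (if p.1 = q.1 ∧ p.2 < q.2 then -1 else 1) else 1) *
      (if (r.1 = q.1 ∧ r.2 < q.2) ∧ ω r = true then -1 else 1) := by
    intro r
    by_cases hr : r = p
    · subst hr
      unfold flp
      by_cases h1 : r.1 = q.1 ∧ r.2 < q.2
      · cases h2 : ω r <;> simp [h1, h2]
      · simp [h1]
    · unfold flp
      simp [hr]
  rw [prod_congr rfl fun r _ => h r, prod_mul_distrib, prod_ite_eq' univ p]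
  simp

lemma sgn_sq (p : ι × Fin D) (ω : Om ι D) : sgn p ω * sgn p ω = 1 := by
  unfold sgn
  rw [← prod_mul_distrib]
  apply prod_eq_one
  intro r _
  split_ifs <;> norm_num

/-- The Clifford operator. -/
noncomputable def gm (p : ι × Fin D) : Module.End ℝ (HH ι D) where
  toFun ξ := WithLp.toLp 2 fun ω => sgn p ω * ξ (flp p ω)
  map_add' ξ η := by ext ω; simp [mul_add]
  map_smul' t ξ := by ext ω; simp; ring

lemma gm_apply (p : ι × Fin D) (ξ : HH ι D) (ω : Om ι D) :
    gm p ξ ω = sgn p ω * ξ (flp p ω) := rfl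

lemma gm_sq (p : ι × Fin D) : gm p * gm p = (1 : Module.End ℝ (HH ι D)) := by
  ext ξ ω
  rw [Module.End.mul_apply, gm_apply, gm_apply, flp_flp, sgn_flp, if_neg (by simp), one_mul,
    ← mul_assoc, sgn_sq, one_mul]
  rfl

lemma gm_mul_apply (p q : ι × Fin D) (ξ : HH ι D) (ω : Om ι D) :
    (gm p * gm q) ξ ω = (if p.1 = q.1 ∧ p.2 < q.2 then -1 else 1) *
      (sgn p ω * sgn q ω * ξ (flp q (flp p ω))) := by
  rw [Module.End.mul_apply, gm_apply, gm_apply, sgn_flp]
  ring

lemma gm_comm {p q : ι × Fin D} (h : p.1 ≠ q.1) : Commute (gm p) (gm q) := by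
  have hpq : p ≠ q := fun h' => h (by rw [h'])
  show gm p * gm q = gm q * gm p
  ext ξ ω
  rw [gm_mul_apply, gm_mul_apply, if_neg (fun h' => h h'.1), if_neg (fun h' => h h'.1.symm),
    flp_comm hpq]
  ring

lemma gm_anti {p q : ι × Fin D} (h : p.1 = q.1) (hpq : p ≠ q) :
    gm p * gm q + gm q * gm p = (0 : Module.End ℝ (HH ι D)) := by
  have hne : p.2 ≠ q.2 := fun h' => hpq (Prod.ext h h')
  ext ξ ω
  rw [LinearMap.add_apply, PiLp.add_apply, gm_mul_apply, gm_mul_apply, flp_comm hpq]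
  rcases lt_or_gt_of_ne hne with h1 | h1
  · rw [if_pos ⟨h, h1⟩, if_neg (fun h' => absurd h'.2 (not_lt.2 h1.le))]
    simp only [LinearMap.zero_apply, PiLp.zero_apply]
    ring
  · rw [if_neg (fun h' => absurd h'.2 (not_lt.2 h1.le)), if_pos ⟨h.symm, h1⟩]
    simp only [LinearMap.zero_apply, PiLp.zero_apply]
    ring

lemma gm_symm (p : ι × Fin D) (ξ η : HH ι D) : inner ℝ (gm p ξ) η = inner ℝ ξ (gm p η) := by
  rw [PiLp.inner_apply, PiLp.inner_apply]
  have hinv : Function.Involutive (flp p : Om ι D → Om ι D) := flp_flp p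
  rw [← Equiv.sum_comp hinv.toPerm]
  refine sum_congr rfl fun ω _ => ?_
  simp only [Function.Involutive.coe_toPerm]
  rw [gm_apply, gm_apply, flp_flp, sgn_flp, if_neg (by simp), one_mul]
  simp only [RCLike.inner_apply, conj_trivial]
  ring

end MP051125H69
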