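import Mathlib

/-!
# Norm estimate for products of kernels

`H` is a real inner product space, `V` a finite set. A kernel is a function
`K : V → V → (H →ₗ[ℝ] H)`. For every `i` in a finite family of graphs `G i` we have a kernel
`T i u v = a i u * a i v + c i u * c i v` and a kernel `M i u v = ∑ k, x i k u * y i k v` which
agrees with `T i` on the edges of `G i` and vanishes on the diagonal.
-/

namespace MP051125H69

set_option linter.unusedSectionVars false

open Finset

variable {V : Type*} [Fintype V] {H : Type*} [NormedAddCommGroup H] [InnerProductSpace ℝ H]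

/-- Kernels. -/
abbrev Ker (V H : Type*) [NormedAddCommGroup H] [InnerProductSpace ℝ H] : Type _ :=
  V → V → Module.End ℝ H

/-- The bilinear form of a kernel. -/
noncomputable def B (K : Ker V H) (x y : V → H) : ℝ := ∑ u, ∑ v, inner ℝ (x u) (K u v (y v))

/-- The squared norm. -/
noncomputable def Q (x : V → H) : ℝ := ∑ u, ‖x u‖ ^ 2

/-- Coordinatewise application of operators. -/
noncomputable def dg (p : V → Module.End ℝ H) : (V → H) →ₗ[ℝ] (V → H) where
  toFun x u := p u (x u)
  map_add' x y := by ext u; simp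
  map_smul' r x := by ext u; simp

@[simp] lemma dg_apply (p : V → Module.End ℝ H) (x : V → H) (u : V) : dg p x u = p u (x u) := rfl

lemma Q_nonneg (x : V → H) : 0 ≤ Q x := sum_nonneg fun _ _ => by positivity

lemma Q_pos {x : V → H} (hx : x ≠ 0) : 0 < Q x := by
  obtain ⟨u, hu⟩ : ∃ u, x u ≠ 0 := by
    by_contra h
    push Not at h
    exact hx (funext h)
  have hu' : 0 < ‖x u‖ ^ 2 := by positivity
  exact lt_of_lt_of_le hu' (single_le_sum (f := fun u => ‖x u‖ ^ 2)
    (fun _ _ => by positivity) (mem_univ u))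

lemma B_add (K K' : Ker V H) (x y : V → H) : B (K + K') x y = B K x y + B K' x y := by
  simp [B, inner_add_right, sum_add_distrib]

lemma B_sub (K K' : Ker V H) (x y : V → H) : B (K - K') x y = B K x y - B K' x y := by
  simp [B, inner_sub_right, sum_sub_distrib]

variable {ι : Type*} (G : ι → SimpleGraph V)

/-- Every two distinct points of `X` are adjacent in one of the graphs of the list. -/
def Cmp (l : List ι) (X : Set V) : Prop := ∀ u ∈ X, ∀ v ∈ X, u ≠ v → ∃ i ∈ l, (G i).Adj u v

/-- The kernel is bounded by `b` on all pairs of complete sets. -/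
def Bdd (l : List ι) (K : Ker V H) (b : ℝ) : Prop :=
  ∀ X Y : Set V, Cmp G l X → Cmp G l Y → ∀ x y : V → H, (∀ u, u ∉ X → x u = 0) →
    (∀ v, v ∉ Y → y v = 0) → |B K x y| ≤ b / 2 * (Q x + Q y)

variable {G}

lemma Bdd.add {l : List ι} {K K' : Ker V H} {b b' : ℝ} (h : Bdd G l K b) (h' : Bdd G l K' b') :
    Bdd G l (K + K') (b + b') := by
  intro X Y hX hY x y hx hy
  rw [B_add]
  have h1 := h X Y hX hY x y hx hy
  have h2 := h' X Y hX hY x y hx hy
  calc |B K x y + B K' x y| ≤ |B K x y| + |B K' x y| := abs_add_le _ _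
    _ ≤ _ := by linarith

lemma Bdd.sub {l : List ι} {K K' : Ker V H} {b b' : ℝ} (h : Bdd G l K b) (h' : Bdd G l K' b') :
    Bdd G l (K - K') (b + b') := by
  intro X Y hX hY x y hx hy
  rw [B_sub]
  have h1 := h X Y hX hY x y hx hy
  have h2 := h' X Y hX hY x y hx hy
  calc |B K x y - B K' x y| ≤ |B K x y| + |B K' x y| := abs_sub _ _
    _ ≤ _ := by linarith

lemma Cmp.congr {l l' : List ι} (h : ∀ j, j ∈ l ↔ j ∈ l') {X : Set V} (hX : Cmp G l X) :
    Cmp G l' X := fun u hu v hv huv => by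
  obtain ⟨i, hi, hadj⟩ := hX u hu v hv huv
  exact ⟨i, (h i).1 hi, hadj⟩

lemma Bdd.congr {l l' : List ι} (h : ∀ j, j ∈ l ↔ j ∈ l') {K : Ker V H} {b : ℝ}
    (hK : Bdd G l K b) : Bdd G l' K b :=
  fun X Y hX hY => hK X Y (hX.congr fun j => (h j).symm) (hY.congr fun j => (h j).symm)

variable (G) in
/-- The data attached to the family of graphs. -/
structure Sys (H : Type*) [NormedAddCommGroup H] [InnerProductSpace ℝ H] (κ : Type*) [Fintype κ]
    (φ : ℝ) where
  /-- commuting algebras -/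
  A : ι → Subalgebra ℝ (Module.End ℝ H)
  /-- first half -/
  a : ι → V → Module.End ℝ H
  /-- second half -/
  c : ι → V → Module.End ℝ H
  /-- left factors -/
  x : ι → κ → V → Module.End ℝ H
  /-- right factors -/
  y : ι → κ → V → Module.End ℝ H
  comm : ∀ i j, i ≠ j → ∀ p ∈ A i, ∀ q ∈ A j, Commute p q
  ha : ∀ i u, a i u ∈ A i
  hc : ∀ i u, c i u ∈ A i
  hx : ∀ i k u, x i k u ∈ A i
  hy : ∀ i k u, y i k u ∈ A i
  sa : ∀ i u ξ η, inner ℝ (a i u ξ) η = inner ℝ ξ (a i u η)
  sc : ∀ i u ξ η, inner ℝ (c i u ξ) η = inner ℝ ξ (c i u η)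
  sx : ∀ i k u ξ η, inner ℝ (x i k u ξ) η = inner ℝ ξ (x i k u η)
  diagT : ∀ i u, a i u * a i u + c i u * c i u = 1
  diagM : ∀ i u, ∑ k, x i k u * y i k u = 0
  edge : ∀ i u v, (G i).Adj u v → a i u * a i v + c i u * c i v = ∑ k, x i k u * y i k v
  indx : ∀ i k u v, x i k u ≠ 0 → x i k v ≠ 0 → ¬ (G i).Adj u v
  indy : ∀ i k u v, y i k u ≠ 0 → y i k v ≠ 0 → ¬ (G i).Adj u v
  bx : ∀ i u ξ, ∑ k, ‖x i k u ξ‖ ^ 2 ≤ φ * ‖ξ‖ ^ 2
  by_ : ∀ i u ξ, ∑ k, ‖y i k u ξ‖ ^ 2 ≤ φ * ‖ξ‖ ^ 2

namespace Sys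

variable {κ : Type*} [Fintype κ] {φ : ℝ} (S : Sys G H κ φ)

/-- The kernel `T i`. -/
def T (i : ι) : Ker V H := fun u v => S.a i u * S.a i v + S.c i u * S.c i v

/-- The kernel `M i`. -/
def M (i : ι) : Ker V H := fun u v => ∑ k, S.x i k u * S.y i k v

/-- product of the `T i` -/
def Tl (l : List ι) : Ker V H := fun u v => (l.map fun i => S.T i u v).prod

/-- product of the `T i - M i` -/
def Rl (l : List ι) : Ker V H := fun u v => (l.map fun i => S.T i u v - S.M i u v).prod

lemma T_mem (i : ι) (u v : V) : S.T i u v ∈ S.A i :=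
  add_mem (mul_mem (S.ha i u) (S.ha i v)) (mul_mem (S.hc i u) (S.hc i v))

lemma M_mem (i : ι) (u v : V) : S.M i u v ∈ S.A i :=
  sum_mem fun k _ => mul_mem (S.hx i k u) (S.hy i k v)

lemma comm_prod (F : ι → Module.End ℝ H) (hF : ∀ i, F i ∈ S.A i) {i : ι} {p : Module.End ℝ H}
    (hp : p ∈ S.A i) {l : List ι} (hi : i ∉ l) : Commute p (l.map F).prod := by
  induction l with
  | nil => simp
  | cons j l ih =>
    rw [List.mem_cons, not_or] at hi
    rw [List.map_cons, List.prod_cons]
    exact (S.comm i j hi.1 p hp _ (hF j)).mul_right (ih hi.2)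

lemma comm_Tl {i : ι} {p : Module.End ℝ H} (hp : p ∈ S.A i) {l : List ι} (hi : i ∉ l) (u v : V) :
    Commute p (S.Tl l u v) :=
  S.comm_prod (fun i => S.T i u v) (fun i => S.T_mem i u v) hp hi

lemma comm_Rl {i : ι} {p : Module.End ℝ H} (hp : p ∈ S.A i) {l : List ι} (hi : i ∉ l) (u v : V) :
    Commute p (S.Rl l u v) :=
  S.comm_prod (fun i => S.T i u v - S.M i u v) (fun i => sub_mem (S.T_mem i u v) (S.M_mem i u v))
    hp hi

lemma Tl_nil : S.Tl [] = (1 : Ker V H) := by ext u v; simp [Tl]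

lemma Rl_nil : S.Rl [] = (1 : Ker V H) := by ext u v; simp [Rl]

lemma Tl_cons (i : ι) (l : List ι) : S.Tl (i :: l) = S.T i * S.Tl l := by
  funext u v; simp [Tl]

lemma Rl_cons (i : ι) (l : List ι) : S.Rl (i :: l) = (S.T i - S.M i) * S.Rl l := by
  funext u v; simp [Rl]

/-- The Gram representation. -/
lemma gram {l : List ι} (hl : l.Nodup) : ∃ (J : Type) (_ : Fintype J), Fintype.card J = 2 ^ l.length ∧
    ∃ Φ : (V → H) →ₗ[ℝ] (J → H), ∀ x y, B (S.Tl l) x y = ∑ r, inner ℝ (Φ x r) (Φ y r) := by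
  induction l with
  | nil =>
    refine ⟨Unit, inferInstance, by simp, ⟨⟨fun x _ => ∑ u, x u, ?_⟩, ?_⟩, ?_⟩
    · intro x y; ext; simp [sum_add_distrib]
    · intro r x; ext; simp [smul_sum]
    · intro x y
      rw [Tl_nil]
      simp only [B, Pi.one_apply, Module.End.one_apply, univ_unique, LinearMap.coe_mk,
        AddHom.coe_mk, sum_const, card_singleton, one_smul, sum_inner, inner_sum]
      exact sum_comm
  | cons i l ih =>
    rw [List.nodup_cons] at hl
    obtain ⟨J, hJ, hcard, Φ, hΦ⟩ := ih hl.2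
    refine ⟨J ⊕ J, inferInstance, ?_,
      ⟨⟨fun x => Sum.elim (Φ (dg (S.a i) x)) (Φ (dg (S.c i) x)), ?_⟩, ?_⟩, ?_⟩
    · rw [Fintype.card_sum, hcard, List.length_cons, pow_succ]; ring
    · intro x y; ext r; rcases r with r | r <;> simp
    · intro t x; ext r; rcases r with r | r <;> simp
    · intro x y
      have key : B (S.Tl (i :: l)) x y =
          B (S.Tl l) (dg (S.a i) x) (dg (S.a i) y) + B (S.Tl l) (dg (S.c i) x) (dg (S.c i) y) := by
        unfold B
        rw [← sum_add_distrib]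
        refine sum_congr rfl fun u _ => ?_
        rw [← sum_add_distrib]
        refine sum_congr rfl fun v _ => ?_
        have h1 := (S.comm_Tl (S.ha i v) hl.1 u v).eq
        have h2 := (S.comm_Tl (S.hc i v) hl.1 u v).eq
        rw [Tl_cons]
        have h3 : (S.T i * S.Tl l) u v =
            S.a i u * (S.Tl l u v * S.a i v) + S.c i u * (S.Tl l u v * S.c i v) := by
          rw [← h1, ← h2]
          simp only [Pi.mul_apply, T]
          rw [add_mul, mul_assoc, mul_assoc]
        rw [h3, dg_apply, dg_apply, dg_apply, dg_apply, S.sa, S.sc, ← inner_add_right]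
        rfl
      rw [key, hΦ, hΦ, Fintype.sum_sum_type]
      rfl

lemma B_self_nonneg {l : List ι} (hl : l.Nodup) (x : V → H) : 0 ≤ B (S.Tl l) x x := by
  obtain ⟨J, _, -, Φ, hΦ⟩ := S.gram hl
  rw [hΦ]
  exact sum_nonneg fun r _ => real_inner_self_nonneg

lemma abs_B_le {l : List ι} (hl : l.Nodup) (x y : V → H) :
    |B (S.Tl l) x y| ≤ (B (S.Tl l) x x + B (S.Tl l) y y) / 2 := by
  obtain ⟨J, _, -, Φ, hΦ⟩ := S.gram hl
  rw [hΦ, hΦ, hΦ, ← sum_add_distrib, sum_div]
  refine (abs_sum_le_sum_abs _ _).trans (sum_le_sum fun r _ => ?_)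
  have h1 := abs_real_inner_le_norm (Φ x r) (Φ y r)
  rw [real_inner_self_eq_norm_sq, real_inner_self_eq_norm_sq]
  nlinarith [sq_nonneg (‖Φ x r‖ - ‖Φ y r‖)]

/-- `PB l`: the form of `T l` is at most `2` on complete sets. -/
def PB (l : List ι) : Prop :=
  ∀ X : Set V, Cmp G l X → ∀ x : V → H, (∀ u, u ∉ X → x u = 0) → B (S.Tl l) x x ≤ 2 * Q x

lemma PB.bdd {l : List ι} (hl : l.Nodup) (h : S.PB l) : Bdd G l (S.Tl l) 2 := by
  intro X Y hX hY x y hx hy
  have h1 := S.abs_B_le hl x y
  have h2 := h X hX x hx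
  have h3 := h Y hY y hy
  linarith

/-- Multiplication by `M i`. -/
lemma bdd_mul {i : ι} {l : List ι} {K : Ker V H} {b : ℝ} (hb : 0 ≤ b)
    (hK : ∀ p ∈ S.A i, ∀ u v, Commute p (K u v)) (h : Bdd G l K b) :
    Bdd G (i :: l) (S.M i * K) (φ * b) := by
  intro X Y hX hY x y hx hy
  have key : B (S.M i * K) x y = ∑ k, B K (dg (S.x i k) x) (dg (S.y i k) y) := by
    unfold B
    conv_rhs => rw [sum_comm]
    refine sum_congr rfl fun u _ => ?_
    conv_rhs => rw [sum_comm]
    refine sum_congr rfl fun v _ => ?_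
    have h3 : (S.M i * K) u v = ∑ k, S.x i k u * (K u v * S.y i k v) := by
      simp only [Pi.mul_apply, M, sum_mul]
      refine sum_congr rfl fun k _ => ?_
      rw [mul_assoc, (hK _ (S.hy i k v) u v).eq]
    rw [h3, LinearMap.sum_apply, inner_sum]
    refine sum_congr rfl fun k _ => ?_
    rw [dg_apply, dg_apply, S.sx]
    rfl
  have hX' : ∀ (I : Set V), (∀ u ∈ I, ∀ v ∈ I, ¬ (G i).Adj u v) → ∀ Z : Set V,
      Cmp G (i :: l) Z → Cmp G l (Z ∩ I) := by
    intro I hI Z hZ u hu v hv huv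
    obtain ⟨j, hj, hadj⟩ := hZ u hu.1 v hv.1 huv
    rw [List.mem_cons] at hj
    rcases hj with rfl | hj
    · exact absurd hadj (hI u hu.2 v hv.2)
    · exact ⟨j, hj, hadj⟩
  have hk : ∀ k, |B K (dg (S.x i k) x) (dg (S.y i k) y)| ≤
      b / 2 * (Q (dg (S.x i k) x) + Q (dg (S.y i k) y)) := by
    intro k
    refine h (X ∩ {u | S.x i k u ≠ 0}) (Y ∩ {u | S.y i k u ≠ 0})
      (hX' _ (fun u hu v hv => S.indx i k u v hu hv) X hX)
      (hX' _ (fun u hu v hv => S.indy i k u v hu hv) Y hY) _ _ ?_ ?_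
    · intro u hu
      rw [dg_apply]
      by_cases h1 : u ∈ X
      · have : S.x i k u = 0 := by
          by_contra h2
          exact hu ⟨h1, h2⟩
        rw [this]; rfl
      · rw [hx u h1]; simp
    · intro u hu
      rw [dg_apply]
      by_cases h1 : u ∈ Y
      · have : S.y i k u = 0 := by
          by_contra h2
          exact hu ⟨h1, h2⟩
        rw [this]; rfl
      · rw [hy u h1]; simp
  have hQx : ∑ k, Q (dg (S.x i k) x) ≤ φ * Q x := by
    unfold Q
    rw [sum_comm, mul_sum]
    exact sum_le_sum fun u _ => S.bx i u (x u)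
  have hQy : ∑ k, Q (dg (S.y i k) y) ≤ φ * Q y := by
    unfold Q
    rw [sum_comm, mul_sum]
    exact sum_le_sum fun u _ => S.by_ i u (y u)
  rw [key]
  calc |∑ k, B K (dg (S.x i k) x) (dg (S.y i k) y)|
      ≤ ∑ k, |B K (dg (S.x i k) x) (dg (S.y i k) y)| := abs_sum_le_sum_abs _ _
    _ ≤ ∑ k, b / 2 * (Q (dg (S.x i k) x) + Q (dg (S.y i k) y)) := sum_le_sum fun k _ => hk k
    _ = b / 2 * (∑ k, Q (dg (S.x i k) x) + ∑ k, Q (dg (S.y i k) y)) := by
        rw [← mul_sum, sum_add_distrib]
    _ ≤ b / 2 * (φ * Q x + φ * Q y) := by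
        have : 0 ≤ b / 2 := by linarith
        exact mul_le_mul_of_nonneg_left (by linarith) this
    _ = φ * b / 2 * (Q x + Q y) := by ring

/-- On a complete set the product of the `T i - M i` is the identity. -/
lemma B_Rl {l : List ι} {X : Set V} (hX : Cmp G l X) {x : V → H} (hx : ∀ u, u ∉ X → x u = 0) :
    B (S.Rl l) x x = Q x := by
  classical
  unfold B Q
  refine sum_congr rfl fun u _ => ?_
  by_cases hu : u ∈ X
  · rw [sum_eq_single u]
    · have : S.Rl l u u = 1 := by
        unfold Rl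
        apply List.prod_eq_one
        intro p hp
        rw [List.mem_map] at hp
        obtain ⟨i, -, rfl⟩ := hp
        simp only [T, M]
        rw [S.diagT, S.diagM, sub_zero]
      rw [this, Module.End.one_apply, real_inner_self_eq_norm_sq]
    · intro v _ hvu
      by_cases hv : v ∈ X
      · obtain ⟨i, hi, hadj⟩ := hX u hu v hv (Ne.symm hvu)
        have : S.Rl l u v = 0 := by
          unfold Rl
          apply List.prod_eq_zero
          rw [List.mem_map]
          refine ⟨i, hi, ?_⟩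
          simp only [T, M]
          rw [S.edge i u v hadj, sub_self]
        rw [this]; simp
      · rw [hx v hv]; simp
    · intro h; exact absurd (mem_univ u) h
  · rw [hx u hu]; simp

lemma bdd_TR (hφ : 0 ≤ φ) : ∀ (C A : List ι), (A ++ C).Nodup →
    (∀ l : List ι, l.Nodup → l.length ≤ (A ++ C).length → S.PB l) →
    Bdd G (A ++ C) (S.Tl A * S.Rl C) (2 * (1 + φ) ^ C.length) := by
  intro C
  induction C with
  | nil =>
    intro A hA h
    rw [List.append_nil] at hA h ⊢
    rw [Rl_nil, mul_one, List.length_nil, pow_zero, mul_one]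
    exact PB.bdd S hA (h A hA le_rfl)
  | cons i C ih =>
    intro A hA h
    have hperm : (i :: (A ++ C)).Nodup := by
      rw [List.nodup_middle] at hA; exact hA
    have hperm' := hperm
    rw [List.nodup_cons] at hperm
    have hiA : i ∉ A := fun h' => hperm.1 (List.mem_append_left _ h')
    have hiC : i ∉ C := fun h' => hperm.1 (List.mem_append_right _ h')
    have e : S.Tl A * S.Rl (i :: C) = S.Tl (i :: A) * S.Rl C - S.M i * (S.Tl A * S.Rl C) := by
      funext u v
      rw [Tl_cons, Rl_cons]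
      simp only [Pi.mul_apply, Pi.sub_apply]
      have h1 := (S.comm_Tl (S.T_mem i u v) hiA u v).eq
      have h2 := (S.comm_Tl (S.M_mem i u v) hiA u v).eq
      rw [← mul_assoc, mul_sub, ← h1, ← h2, sub_mul, mul_assoc (S.M i u v)]
    rw [e]
    have h1 := ih (i :: A) hperm' (fun l hl hlen => h l hl (by
      simp only [List.cons_append, List.length_cons, List.length_append] at hlen ⊢; omega))
    have h2 := ih A hperm.2 (fun l hl hlen => h l hl (by
      simp only [List.length_cons, List.length_append] at hlen ⊢; omega))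
    have h3 := S.bdd_mul (i := i) (by positivity) (fun p hp u v =>
      (S.comm_Tl hp hiA u v).mul_right (S.comm_Rl hp hiC u v)) h2
    have h4 := h1.sub h3
    have h5 : 2 * (1 + φ) ^ (i :: C).length = 2 * (1 + φ) ^ C.length + φ * (2 * (1 + φ) ^ C.length) := by
      rw [List.length_cons, pow_succ]; ring
    rw [h5]
    refine h4.congr fun j => ?_
    simp only [List.cons_append, List.mem_cons, List.mem_append]; tauto

lemma bdd_diff (hφ : 0 ≤ φ) : ∀ (C A : List ι), (A ++ C).Nodup →
    (∀ l : List ι, l.Nodup → l.length < (A ++ C).length → S.PB l) →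
    Bdd G (A ++ C) (S.Tl A * (S.Tl C - S.Rl C)) (2 * ((1 + φ) ^ C.length - 1)) := by
  intro C
  induction C with
  | nil =>
    intro A hA h
    rw [Rl_nil, Tl_nil, sub_self, mul_zero, List.length_nil, pow_zero, sub_self, mul_zero]
    intro X Y _ _ x y _ _
    simp [B]
  | cons i C ih =>
    intro A hA h
    have hperm : (i :: (A ++ C)).Nodup := by
      rw [List.nodup_middle] at hA; exact hA
    have hperm' := hperm
    rw [List.nodup_cons] at hperm
    have hiA : i ∉ A := fun h' => hperm.1 (List.mem_append_left _ h')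
    have hiC : i ∉ C := fun h' => hperm.1 (List.mem_append_right _ h')
    have e : S.Tl A * (S.Tl (i :: C) - S.Rl (i :: C)) =
        S.Tl (i :: A) * (S.Tl C - S.Rl C) + S.M i * (S.Tl A * S.Rl C) := by
      funext u v
      rw [Tl_cons, Rl_cons, Tl_cons]
      simp only [Pi.mul_apply, Pi.sub_apply, Pi.add_apply]
      have h1 := (S.comm_Tl (S.T_mem i u v) hiA u v).eq
      have h2 := (S.comm_Tl (S.M_mem i u v) hiA u v).eq
      have h3 : S.T i u v * S.Tl C u v - (S.T i u v - S.M i u v) * S.Rl C u v =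
          S.T i u v * (S.Tl C u v - S.Rl C u v) + S.M i u v * S.Rl C u v := by noncomm_ring
      rw [h3, mul_add, ← mul_assoc, ← mul_assoc, h1, ← h2, mul_assoc (S.M i u v)]
    rw [e]
    have h1 := ih (i :: A) hperm' (fun l hl hlen => h l hl (by
      simp only [List.cons_append, List.length_cons, List.length_append] at hlen ⊢; omega))
    have h2 := S.bdd_TR hφ C A hperm.2 (fun l hl hlen => h l hl (by
      simp only [List.length_cons, List.length_append] at hlen ⊢; omega))
    have h3 := S.bdd_mul (i := i) (by positivity) (fun p hp u v =>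
      (S.comm_Tl hp hiA u v).mul_right (S.comm_Rl hp hiC u v)) h2
    have h4 := h1.add h3
    have h5 : 2 * ((1 + φ) ^ (i :: C).length - 1) =
        2 * ((1 + φ) ^ C.length - 1) + φ * (2 * (1 + φ) ^ C.length) := by
      rw [List.length_cons, pow_succ]; ring
    rw [h5]
    refine h4.congr fun j => ?_
    simp only [List.cons_append, List.mem_cons, List.mem_append]; tauto

lemma abs_diff_le {l : List ι} (hφ : 0 ≤ φ) (hl : l.Nodup)
    (h : ∀ l' : List ι, l'.Nodup → l'.length < l.length → S.PB l') {X : Set V} (hX : Cmp G l X)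
    {x : V → H} (hx : ∀ u, u ∉ X → x u = 0) :
    |B (S.Tl l) x x - Q x| ≤ 2 * ((1 + φ) ^ l.length - 1) * Q x := by
  have h1 := S.bdd_diff hφ l [] (by simpa using hl) (by simpa using h) X X (by simpa using hX)
    (by simpa using hX) x x hx hx
  rw [Tl_nil, one_mul, B_sub, S.B_Rl hX hx] at h1
  linarith

/-- All forms are bounded by `2`. -/
lemma pb_all (hφ : 0 ≤ φ) {n : ℕ} (hn : (1 + φ) ^ n ≤ 3 / 2) :
    ∀ m ≤ n, ∀ l : List ι, l.Nodup → l.length = m → S.PB l := by
  intro m
  induction m using Nat.strong_induction_on with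
  | _ m ih =>
    intro hm l hl hlen X hX x hx
    have h1 := S.abs_diff_le hφ hl (fun l' hl' hlt => ih l'.length (hlen ▸ hlt) (by omega) l' hl' rfl)
      hX hx
    have h2 : (1 + φ) ^ l.length ≤ 3 / 2 :=
      (pow_le_pow_right₀ (by linarith) (by omega)).trans hn
    have h3 := (abs_le.1 h1).2
    have h4 := Q_nonneg x
    nlinarith

/-- The rank argument. -/
theorem card_le (S : Sys G H κ φ) (hφ : 0 ≤ φ) {n : ℕ} (hn : (1 + φ) ^ n < 3 / 2) [FiniteDimensional ℝ H]
    [Nontrivial H] {l : List ι} (hl : l.Nodup) (hlen : l.length = n) (hX : Cmp G l Set.univ) :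
    Fintype.card V ≤ 2 ^ n := by
  by_contra hcon
  push Not at hcon
  obtain ⟨J, _, hcard, Φ, hΦ⟩ := S.gram hl
  have h0 : 0 < Module.finrank ℝ H := Module.finrank_pos
  have h1 : Module.finrank ℝ (J → H) < Module.finrank ℝ (V → H) := by
    rw [Module.finrank_pi_fintype, Module.finrank_pi_fintype, sum_const, sum_const, card_univ,
      card_univ, hcard, smul_eq_mul, smul_eq_mul, hlen]
    exact Nat.mul_lt_mul_of_pos_right hcon h0
  have h2 := LinearMap.ker_ne_bot_of_finrank_lt (f := Φ) h1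
  obtain ⟨x, hx, hx0⟩ := Submodule.exists_mem_ne_zero_of_ne_bot h2
  have h3 : B (S.Tl l) x x = 0 := by
    rw [hΦ, LinearMap.mem_ker.1 hx]; simp
  have h4 := S.abs_diff_le hφ hl (fun l' hl' hlt => S.pb_all hφ hn.le l'.length (by omega) l' hl' rfl)
    hX (x := x) (fun u hu => absurd (Set.mem_univ u) hu)
  rw [h3, hlen, zero_sub, abs_neg] at h4
  have h5 := Q_pos hx0
  have h6 := le_abs_self (Q x)
  nlinarith

end Sys

end MP051125H69
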