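import Mathlib

/-!
# The operators attached to one graph

`g j` (`j : Fin D`) are anticommuting symmetric involutions of a Euclidean space `H`, and
`l j : V → ℕ`, `sg j : V → Bool` are the levels and the signs of `D` clusterings of a graph `G`.
-/

namespace MP051125H69

open Finset

/-- The properties of the levels and signs. -/
structure LabD {V : Type*} (G : SimpleGraph V) (R : ℕ) {D : ℕ} (l : Fin D → V → ℕ)
    (sg : Fin D → V → Bool) : Prop where
  le : ∀ j u, l j u ≤ R + 1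
  adj : ∀ j u v, G.Adj u v → l j u ≤ l j v + 1
  sgn : ∀ j u v, G.Adj u v → 1 ≤ l j u → 1 ≤ l j v → sg j u ≠ sg j v
  cov : ∀ u, ∃ j, l j u = R + 1

section cl

variable {H : Type*} [NormedAddCommGroup H] [InnerProductSpace ℝ H] {D : ℕ}
  (g : Fin D → Module.End ℝ H)

/-- Linear combination of the generators. -/
noncomputable def cl (a : Fin D → ℝ) : Module.End ℝ H := ∑ j, a j • g j

lemma cl_add (a b : Fin D → ℝ) : cl g (a + b) = cl g a + cl g b := by
  simp [cl, add_smul, sum_add_distrib]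

lemma cl_neg (a : Fin D → ℝ) : cl g (-a) = - cl g a := by
  simp [cl, sum_neg_distrib]

lemma cl_symm (hs : ∀ j ξ η, inner ℝ (g j ξ) η = inner ℝ ξ (g j η)) (a : Fin D → ℝ) (ξ η : H) :
    inner ℝ (cl g a ξ) η = inner ℝ ξ (cl g a η) := by
  simp only [cl, LinearMap.sum_apply, LinearMap.smul_apply, sum_inner, inner_sum,
    real_inner_smul_left, real_inner_smul_right, hs]

lemma cl_sq (h1 : ∀ j, g j * g j = 1) (h2 : ∀ j k, j ≠ k → g j * g k + g k * g j = 0)
    (a : Fin D → ℝ) : cl g a * cl g a = (∑ j, a j ^ 2) • (1 : Module.End ℝ H) := by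
  have e1 : cl g a * cl g a = ∑ j, ∑ k, (a j * a k) • (g j * g k) := by
    simp only [cl, sum_mul_sum, smul_mul_smul_comm]
  have e2 : cl g a * cl g a = ∑ j, ∑ k, (a j * a k) • (g k * g j) := by
    rw [e1, sum_comm]
    exact sum_congr rfl fun j _ => sum_congr rfl fun k _ => by rw [mul_comm (a k)]
  have e3 : (2 : ℝ) • (cl g a * cl g a) = (2 : ℝ) • ((∑ j, a j ^ 2) • (1 : Module.End ℝ H)) := by
    calc (2 : ℝ) • (cl g a * cl g a) = cl g a * cl g a + cl g a * cl g a := two_smul ℝ _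
      _ = ∑ j, ∑ k, (a j * a k) • (g j * g k + g k * g j) := by
          conv_lhs => rw [show cl g a * cl g a + cl g a * cl g a =
            (∑ j, ∑ k, (a j * a k) • (g j * g k)) + ∑ j, ∑ k, (a j * a k) • (g k * g j) by
              rw [← e1, ← e2]]
          simp only [smul_add, sum_add_distrib]
      _ = ∑ j, (2 * a j ^ 2) • (1 : Module.End ℝ H) := by
          refine sum_congr rfl fun j _ => ?_
          rw [sum_eq_single j]
          · rw [h1, ← two_smul ℝ (1 : Module.End ℝ H), smul_smul]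
            congr 1; ring
          · intro k _ hk
            rw [h2 j k (Ne.symm hk), smul_zero]
          · intro h; exact absurd (mem_univ j) h
      _ = _ := by rw [sum_smul, smul_sum]; simp [smul_smul]
  exact smul_right_injective _ (two_ne_zero' ℝ) e3

lemma cl_norm (h1 : ∀ j, g j * g j = 1) (h2 : ∀ j k, j ≠ k → g j * g k + g k * g j = 0)
    (hs : ∀ j ξ η, inner ℝ (g j ξ) η = inner ℝ ξ (g j η)) (a : Fin D → ℝ) (ξ : H) :
    ‖cl g a ξ‖ ^ 2 = (∑ j, a j ^ 2) * ‖ξ‖ ^ 2 := by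
  rw [← real_inner_self_eq_norm_sq, cl_symm g hs, ← Module.End.mul_apply, cl_sq g h1 h2,
    LinearMap.smul_apply, Module.End.one_apply, real_inner_smul_right, real_inner_self_eq_norm_sq]

lemma g_norm (h1 : ∀ j, g j * g j = 1) (hs : ∀ j ξ η, inner ℝ (g j ξ) η = inner ℝ ξ (g j η))
    (j : Fin D) (ξ : H) : ‖g j ξ‖ ^ 2 = ‖ξ‖ ^ 2 := by
  rw [← real_inner_self_eq_norm_sq, hs, ← Module.End.mul_apply, h1, Module.End.one_apply,
    real_inner_self_eq_norm_sq]

end cl

lemma sum_ite_le_of_unique {α : Type*} [Fintype α] (P : α → Prop) [DecidablePred P]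
    (h : ∀ a b, P a → P b → a = b) {c : ℝ} (hc : 0 ≤ c) : (∑ a, if P a then c else 0) ≤ c := by
  by_cases hex : ∃ a, P a
  · obtain ⟨a, ha⟩ := hex
    rw [sum_eq_single a]
    · rw [if_pos ha]
    · intro b _ hb
      rw [if_neg]
      intro hPb
      exact hb (h b a hPb ha)
    · intro h; exact absurd (mem_univ a) h
  · push Not at hex
    rw [sum_eq_zero]
    · exact hc
    · intro a _; rw [if_neg (hex a)]

lemma coef (a b : ℕ) (s t : Bool) (h1 : a ≤ b + 1) (h2 : b ≤ a + 1)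
    (h3 : 1 ≤ a → 1 ≤ b → s ≠ t) : ((b - 1 : ℕ) : ℝ) - ((a - 1 : ℕ) : ℝ) =
      (if 1 ≤ a ∧ (t = !s) ∧ 1 ≤ b ∧ b = a + 1 then 1 else 0) +
      (if 1 ≤ a ∧ (t = !s) ∧ 1 ≤ b ∧ b + 1 = a then -1 else 0) := by
  have h4 : s ≠ t → t = !s := by
    intro h
    cases s <;> cases t <;> simp at h ⊢
  rcases lt_trichotomy a b with h | h | h
  · obtain rfl : b = a + 1 := by omega
    rw [if_neg (c := 1 ≤ a ∧ (t = !s) ∧ 1 ≤ a + 1 ∧ a + 1 + 1 = a) (by rintro ⟨-, -, -, h'⟩; omega)]
    rcases a with _ | a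
    · simp
    · rw [if_pos ⟨by omega, h4 (h3 (by omega) (by omega)), by omega, rfl⟩]
      simp
  · subst h
    rw [if_neg (by rintro ⟨-, -, -, h'⟩; omega), if_neg (by rintro ⟨-, -, -, h'⟩; omega)]
    simp
  · obtain rfl : a = b + 1 := by omega
    rw [if_neg (c := 1 ≤ b + 1 ∧ (t = !s) ∧ 1 ≤ b ∧ b = b + 1 + 1) (by rintro ⟨-, -, -, h'⟩; omega)]
    rcases b with _ | b
    · simp
    · rw [if_pos ⟨by omega, h4 (h3 (by omega) (by omega)), by omega, rfl⟩]
      simp

section one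

variable {V : Type*} {H : Type*} [NormedAddCommGroup H] [InnerProductSpace ℝ H] {D : ℕ}
  (g : Fin D → Module.End ℝ H) (R : ℕ) (r : ℝ) (l : Fin D → V → ℕ) (sg : Fin D → V → Bool)

/-- weights -/
def wt (u : V) : Fin D → ℝ := fun j => ((l j u - 1 : ℕ) : ℝ)

/-- signs -/
def ss (u : V) : Fin D → ℝ := fun j => if sg j u then 1 else -1

/-- normalisation -/
noncomputable def hh (u : V) : ℝ := √(2 * ∑ j, wt l u j ^ 2)

/-- first half -/
noncomputable def opa (u : V) : Module.End ℝ H := (hh l u)⁻¹ • cl g (wt l u)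

/-- second half -/
noncomputable def opc (u : V) : Module.End ℝ H := (hh l u)⁻¹ • cl g (ss sg u * wt l u)

/-- The index set of the factorisation. -/
abbrev Kp (D R : ℕ) : Type := (Fin D × Bool) × (Fin (R + 2) × Bool)

/-- condition for the left factor -/
def Px (j : Fin D) (st : Fin (R + 2) × Bool) (u : V) : Prop :=
  l j u = st.1 ∧ sg j u = st.2 ∧ 1 ≤ (st.1 : ℕ)

/-- condition for the right factor -/
def Py (j : Fin D) (d : Bool) (st : Fin (R + 2) × Bool) (v : V) : Prop :=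
  sg j v = !st.2 ∧ 1 ≤ l j v ∧ (if d then l j v = st.1 + 1 else l j v + 1 = st.1)

instance (j : Fin D) (st : Fin (R + 2) × Bool) (u : V) : Decidable (Px R l sg j st u) := by
  unfold Px; infer_instance

instance (j : Fin D) (d : Bool) (st : Fin (R + 2) × Bool) (v : V) :
    Decidable (Py R l sg j d st v) := by
  unfold Py; infer_instance

/-- left factors -/
noncomputable def opx (k : Kp D R) (u : V) : Module.End ℝ H :=
  if Px R l sg k.1.1 k.2 u then
    (r * (hh l u)⁻¹) • (cl g (wt l u) - ss sg u k.1.1 • cl g (ss sg u * wt l u)) else 0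

/-- right factors -/
noncomputable def opy (k : Kp D R) (v : V) : Module.End ℝ H :=
  if Py R l sg k.1.1 k.1.2 k.2 v then
    ((if k.1.2 then 1 else -1) * r⁻¹ * (hh l v)⁻¹) • g k.1.1 else 0

variable {g R r l sg} {G : SimpleGraph V}

lemma ss_sq (u : V) (j : Fin D) : ss sg u j ^ 2 = 1 := by
  unfold ss; split_ifs <;> norm_num

lemma sum_sw (u : V) : ∑ j, (ss sg u * wt l u) j ^ 2 = ∑ j, wt l u j ^ 2 := by
  refine sum_congr rfl fun j _ => ?_
  rw [Pi.mul_apply, mul_pow, ss_sq, one_mul]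

lemma hh_sq (u : V) : hh l u ^ 2 = 2 * ∑ j, wt l u j ^ 2 :=
  Real.sq_sqrt (mul_nonneg zero_le_two (sum_nonneg fun _ _ => sq_nonneg _))

lemma hh_ge (hL : LabD G R l sg) (u : V) : 2 * (R : ℝ) ^ 2 ≤ hh l u ^ 2 := by
  rw [hh_sq]
  obtain ⟨j, hj⟩ := hL.cov u
  have : wt l u j ^ 2 = (R : ℝ) ^ 2 := by
    unfold wt; rw [hj]; simp
  have h2 := single_le_sum (f := fun j => wt l u j ^ 2) (fun _ _ => sq_nonneg _) (mem_univ j)
  linarith

lemma hh_pos (hR : 1 ≤ R) (hL : LabD G R l sg) (u : V) : 0 < hh l u := by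
  have h1 := hh_ge hL u
  have h2 : (1 : ℝ) ≤ R := by exact_mod_cast hR
  have h3 : 0 ≤ hh l u := Real.sqrt_nonneg _
  rcases h3.lt_or_eq with h | h
  · exact h
  · rw [← h] at h1; nlinarith

variable (h1 : ∀ j, g j * g j = 1) (h2 : ∀ j k, j ≠ k → g j * g k + g k * g j = 0)
  (hs : ∀ j ξ η, inner ℝ (g j ξ) η = inner ℝ ξ (g j η))

include hs in
lemma opa_symm (u : V) (ξ η : H) : inner ℝ (opa g l u ξ) η = inner ℝ ξ (opa g l u η) := by
  unfold opa
  rw [LinearMap.smul_apply, LinearMap.smul_apply, real_inner_smul_left, real_inner_smul_right,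
    cl_symm g hs]

include hs in
lemma opc_symm (u : V) (ξ η : H) :
    inner ℝ (opc g l sg u ξ) η = inner ℝ ξ (opc g l sg u η) := by
  unfold opc
  rw [LinearMap.smul_apply, LinearMap.smul_apply, real_inner_smul_left, real_inner_smul_right,
    cl_symm g hs]

include hs in
lemma opx_symm (k : Kp D R) (u : V) (ξ η : H) :
    inner ℝ (opx g R r l sg k u ξ) η = inner ℝ ξ (opx g R r l sg k u η) := by
  unfold opx
  split_ifs
  · simp only [LinearMap.smul_apply, LinearMap.sub_apply, real_inner_smul_left,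
      real_inner_smul_right, inner_sub_left, inner_sub_right, cl_symm g hs]
  · simp

include h1 h2 in
lemma op_diag (hR : 1 ≤ R) (hL : LabD G R l sg) (u : V) :
    opa g l u * opa g l u + opc g l sg u * opc g l sg u = 1 := by
  have h0 := (hh_pos hR hL u).ne'
  unfold opa opc
  rw [smul_mul_smul_comm, smul_mul_smul_comm, cl_sq g h1 h2, cl_sq g h1 h2, sum_sw, ← smul_add,
    ← add_smul, smul_smul, ← two_mul, ← hh_sq]
  have : (hh l u)⁻¹ * (hh l u)⁻¹ * hh l u ^ 2 = 1 := by field_simp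
  rw [this, one_smul]

lemma Px_ne {k : Kp D R} {u : V} (h : opx g R r l sg k u ≠ 0) : Px R l sg k.1.1 k.2 u := by
  by_contra h'
  exact h (if_neg h')

lemma Py_ne {k : Kp D R} {u : V} (h : opy g R r l sg k u ≠ 0) :
    Py R l sg k.1.1 k.1.2 k.2 u := by
  by_contra h'
  exact h (if_neg h')

lemma opx_ind (hL : LabD G R l sg) (k : Kp D R) (u v : V) (hu : opx g R r l sg k u ≠ 0)
    (hv : opx g R r l sg k v ≠ 0) : ¬ G.Adj u v := by
  obtain ⟨a1, a2, a3⟩ := Px_ne hu
  obtain ⟨b1, b2, b3⟩ := Px_ne hv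
  intro h
  exact hL.sgn k.1.1 u v h (by omega) (by omega) (by rw [a2, b2])

lemma opy_ind (hL : LabD G R l sg) (k : Kp D R) (u v : V) (hu : opy g R r l sg k u ≠ 0)
    (hv : opy g R r l sg k v ≠ 0) : ¬ G.Adj u v := by
  obtain ⟨a1, a2, a3⟩ := Py_ne hu
  obtain ⟨b1, b2, b3⟩ := Py_ne hv
  intro h
  exact hL.sgn k.1.1 u v h a2 b2 (by rw [a1, b1])

lemma op_diagM (k : Kp D R) (u : V) : opx g R r l sg k u * opy g R r l sg k u = 0 := by
  by_cases hu : opx g R r l sg k u = 0
  · rw [hu, zero_mul]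
  by_cases hv : opy g R r l sg k u = 0
  · rw [hv, mul_zero]
  obtain ⟨a1, a2, a3⟩ := Px_ne hu
  obtain ⟨b1, b2, b3⟩ := Py_ne hv
  rw [a2] at b1
  cases h : k.2.2 <;> rw [h] at b1 <;> simp at b1

include h1 h2 hs in
lemma opx_bound (hR : 1 ≤ R) (hL : LabD G R l sg) (u : V) (ξ : H) :
    ∑ k : Kp D R, ‖opx g R r l sg k u ξ‖ ^ 2 ≤ 4 * D * r ^ 2 * ‖ξ‖ ^ 2 := by
  have h0 := (hh_pos hR hL u).ne'
  have hb : ∀ j : Fin D, ‖((r * (hh l u)⁻¹) • (cl g (wt l u) - ss sg u j •
      cl g (ss sg u * wt l u))) ξ‖ ^ 2 ≤ 2 * r ^ 2 * ‖ξ‖ ^ 2 := by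
    intro j
    rw [LinearMap.smul_apply, norm_smul, mul_pow, LinearMap.sub_apply, LinearMap.smul_apply]
    have e1 := cl_norm g h1 h2 hs (wt l u) ξ
    have e2 := cl_norm g h1 h2 hs (ss sg u * wt l u) ξ
    rw [sum_sw] at e2
    have e3 : ‖cl g (wt l u) ξ - ss sg u j • cl g (ss sg u * wt l u) ξ‖ ^ 2 ≤
        2 * (‖cl g (wt l u) ξ‖ ^ 2 + ‖ss sg u j • cl g (ss sg u * wt l u) ξ‖ ^ 2) := by
      have := norm_sub_le (cl g (wt l u) ξ) (ss sg u j • cl g (ss sg u * wt l u) ξ)
      have h3 := norm_nonneg (cl g (wt l u) ξ - ss sg u j • cl g (ss sg u * wt l u) ξ)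
      nlinarith [sq_nonneg (‖cl g (wt l u) ξ‖ - ‖ss sg u j • cl g (ss sg u * wt l u) ξ‖)]
    have e4 : ‖ss sg u j • cl g (ss sg u * wt l u) ξ‖ ^ 2 = ‖cl g (ss sg u * wt l u) ξ‖ ^ 2 := by
      rw [norm_smul, mul_pow, Real.norm_eq_abs, sq_abs, ss_sq, one_mul]
    rw [e4, e1, e2, ← two_mul, ← mul_assoc, ← mul_assoc, mul_assoc (2 : ℝ) 2, mul_assoc (2 : ℝ),
      ← hh_sq] at e3
    rw [Real.norm_eq_abs, sq_abs, mul_pow]
    calc r ^ 2 * (hh l u)⁻¹ ^ 2 * ‖cl g (wt l u) ξ - ss sg u j • cl g (ss sg u * wt l u) ξ‖ ^ 2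
        ≤ r ^ 2 * (hh l u)⁻¹ ^ 2 * (2 * (hh l u ^ 2 * ‖ξ‖ ^ 2)) := by
          apply mul_le_mul_of_nonneg_left _ (by positivity)
          linarith
      _ = 2 * r ^ 2 * ‖ξ‖ ^ 2 := by field_simp
  rw [Fintype.sum_prod_type]
  calc ∑ jd : Fin D × Bool, ∑ st, ‖opx g R r l sg (jd, st) u ξ‖ ^ 2
      ≤ ∑ jd : Fin D × Bool, 2 * r ^ 2 * ‖ξ‖ ^ 2 := by
        refine sum_le_sum fun jd _ => ?_
        refine le_trans (sum_le_sum (g := fun st => if Px R l sg jd.1 st u then
          2 * r ^ 2 * ‖ξ‖ ^ 2 else 0) fun st _ => ?_) (sum_ite_le_of_unique _ ?_ (by positivity))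
        · unfold opx
          split_ifs with h
          · exact hb jd.1
          · simp
        · rintro a b ⟨a1, a2, -⟩ ⟨b1, b2, -⟩
          refine Prod.ext (Fin.ext ?_) ?_
          · rw [← a1, ← b1]
          · rw [← a2, ← b2]
    _ = 4 * D * r ^ 2 * ‖ξ‖ ^ 2 := by
        rw [sum_const, card_univ, Fintype.card_prod, Fintype.card_bool, Fintype.card_fin,
          nsmul_eq_mul]
        push_cast
        ring

include h1 hs in
lemma opy_bound (hR : 1 ≤ R) (hr : 0 < r) (hL : LabD G R l sg) (u : V) (ξ : H) :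
    ∑ k : Kp D R, ‖opy g R r l sg k u ξ‖ ^ 2 ≤ D / (r ^ 2 * R ^ 2) * ‖ξ‖ ^ 2 := by
  have h0 := hh_pos hR hL u
  have hR' : (1 : ℝ) ≤ R := by exact_mod_cast hR
  have hb : ∀ (j : Fin D) (d : Bool), ‖(((if d then 1 else -1) * r⁻¹ * (hh l u)⁻¹) • g j) ξ‖ ^ 2 ≤
      1 / (2 * (r ^ 2 * R ^ 2)) * ‖ξ‖ ^ 2 := by
    intro j d
    rw [LinearMap.smul_apply, norm_smul, mul_pow, g_norm g h1 hs, Real.norm_eq_abs, sq_abs,
      mul_pow, mul_pow]
    have e1 : (if d = true then (1 : ℝ) else -1) ^ 2 = 1 := by split_ifs <;> norm_num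
    rw [e1, one_mul, inv_pow, inv_pow, ← mul_inv]
    apply mul_le_mul_of_nonneg_right _ (sq_nonneg _)
    rw [← one_div]
    apply one_div_le_one_div_of_le (by positivity)
    have := hh_ge hL u
    nlinarith [sq_nonneg r]
  rw [Fintype.sum_prod_type]
  calc ∑ jd : Fin D × Bool, ∑ st, ‖opy g R r l sg (jd, st) u ξ‖ ^ 2
      ≤ ∑ jd : Fin D × Bool, 1 / (2 * (r ^ 2 * R ^ 2)) * ‖ξ‖ ^ 2 := by
        refine sum_le_sum fun jd _ => ?_
        refine le_trans (sum_le_sum (g := fun st => if Py R l sg jd.1 jd.2 st u then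
          1 / (2 * (r ^ 2 * R ^ 2)) * ‖ξ‖ ^ 2 else 0) fun st _ => ?_)
          (sum_ite_le_of_unique _ ?_ (by positivity))
        · unfold opy
          by_cases h : Py R l sg jd.1 jd.2 st u
          · rw [if_pos h, if_pos h]
            exact hb jd.1 jd.2
          · rw [if_neg h, if_neg h]
            simp
        · rintro a b ⟨a1, a2, a3⟩ ⟨b1, b2, b3⟩
          refine Prod.ext (Fin.ext ?_) ?_
          · split_ifs at a3 b3 <;> omega
          · have := a1.symm.trans b1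
            simpa using this
    _ = D / (r ^ 2 * R ^ 2) * ‖ξ‖ ^ 2 := by
        rw [sum_const, card_univ, Fintype.card_prod, Fintype.card_bool, Fintype.card_fin,
          nsmul_eq_mul]
        push_cast
        ring

/-- The factorisation on the edges. -/
lemma op_edge (hr : r ≠ 0) (hR : 1 ≤ R) (hL : LabD G R l sg)
    (h1 : ∀ j, g j * g j = 1) (h2 : ∀ j k, j ≠ k → g j * g k + g k * g j = 0)
    (u v : V) (huv : G.Adj u v) :
    opa g l u * opa g l v + opc g l sg u * opc g l sg v =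
      ∑ k : Kp D R, opx g R r l sg k u * opy g R r l sg k v := by
  have hu := (hh_pos hR hL u).ne'
  have hv := (hh_pos hR hL v).ne'
  set q : Fin D → ℝ := fun j => wt l v j - wt l u j with hq
  have ew : wt l v = wt l u + q := by funext j; simp [hq]
  have es : ss sg v * wt l v = -(ss sg u * wt l u + ss sg u * q) := by
    funext j
    simp only [Pi.mul_apply, Pi.neg_apply, Pi.add_apply, hq]
    by_cases hv2 : l j v ≤ 1
    · have : wt l v j = 0 := by unfold wt; rw [Nat.sub_eq_zero_of_le hv2]; simp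
      rw [this]; ring
    · have h3 := hL.adj j v u huv.symm
      have h4 := hL.sgn j u v huv (by omega) (by omega)
      have : ss sg v j = - ss sg u j := by
        unfold ss
        cases h5 : sg j u <;> cases h6 : sg j v <;> simp [h5, h6] at h4 ⊢
      rw [this]; ring
  -- left hand side
  have lhs : opa g l u * opa g l v + opc g l sg u * opc g l sg v =
      ∑ j, (q j * ((hh l u)⁻¹ * (hh l v)⁻¹)) •
        ((cl g (wt l u) - ss sg u j • cl g (ss sg u * wt l u)) * g j) := by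
    unfold opa opc
    rw [smul_mul_smul_comm, smul_mul_smul_comm, ← smul_add, es, ew, cl_neg, cl_add, cl_add, mul_add,
      mul_neg, mul_add, cl_sq g h1 h2, cl_sq g h1 h2, sum_sw]
    have e : (∑ j, wt l u j ^ 2) • (1 : Module.End ℝ H) + cl g (wt l u) * cl g q +
        -((∑ j, wt l u j ^ 2) • (1 : Module.End ℝ H) +
          cl g (ss sg u * wt l u) * cl g (ss sg u * q)) =
        cl g (wt l u) * cl g q - cl g (ss sg u * wt l u) * cl g (ss sg u * q) := by abel
    rw [e]
    have e1 : cl g (wt l u) * cl g q = ∑ j, q j • (cl g (wt l u) * g j) := by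
      conv_lhs => rw [show cl g q = ∑ j, q j • g j from rfl]
      rw [mul_sum]
      exact sum_congr rfl fun j _ => mul_smul_comm _ _ _
    have e2 : cl g (ss sg u * wt l u) * cl g (ss sg u * q) =
        ∑ j, q j • (ss sg u j • (cl g (ss sg u * wt l u) * g j)) := by
      conv_lhs => rw [show cl g (ss sg u * q) = ∑ j, (ss sg u * q) j • g j from rfl]
      rw [mul_sum]
      refine sum_congr rfl fun j _ => ?_
      rw [mul_smul_comm, smul_smul, Pi.mul_apply, mul_comm (ss sg u j)]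
    rw [e1, e2, ← sum_sub_distrib, smul_sum]
    refine sum_congr rfl fun j _ => ?_
    rw [← smul_sub, smul_smul, mul_comm (q j), sub_mul, smul_mul_assoc]
  rw [lhs, Fintype.sum_prod_type, Fintype.sum_prod_type]
  refine sum_congr rfl fun j _ => ?_
  -- right hand side for fixed `j`
  have hst : ∀ d : Bool, ∑ st : Fin (R + 2) × Bool,
      opx g R r l sg ((j, d), st) u * opy g R r l sg ((j, d), st) v =
      ((if (1 ≤ l j u ∧ sg j v = !sg j u ∧ 1 ≤ l j v ∧
        (if d then l j v = l j u + 1 else l j v + 1 = l j u)) then (if d then (1 : ℝ) else -1)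
          else 0) * ((hh l u)⁻¹ * (hh l v)⁻¹)) •
        ((cl g (wt l u) - ss sg u j • cl g (ss sg u * wt l u)) * g j) := by
    intro d
    have hlt : l j u < R + 2 := by have := hL.le j u; omega
    rw [sum_eq_single ((⟨l j u, hlt⟩, sg j u) : Fin (R + 2) × Bool)]
    · by_cases c1 : 1 ≤ l j u
      · by_cases c2 : (sg j v = !sg j u ∧ 1 ≤ l j v ∧
          (if d then l j v = l j u + 1 else l j v + 1 = l j u))
        · rw [if_pos ⟨c1, c2⟩]
          have e1 : opx g R r l sg ((j, d), (⟨l j u, hlt⟩, sg j u)) u = (r * (hh l u)⁻¹) •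
              (cl g (wt l u) - ss sg u j • cl g (ss sg u * wt l u)) := if_pos ⟨rfl, rfl, c1⟩
          have e2 : opy g R r l sg ((j, d), (⟨l j u, hlt⟩, sg j u)) v =
              ((if d then 1 else -1) * r⁻¹ * (hh l v)⁻¹) • g j := if_pos c2
          rw [e1, e2, smul_mul_smul_comm]
          congr 1
          field_simp
        · rw [if_neg (fun h => c2 h.2), zero_mul, zero_smul]
          have e2 : opy g R r l sg ((j, d), (⟨l j u, hlt⟩, sg j u)) v = 0 := if_neg c2
          rw [e2, mul_zero]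
      · rw [if_neg (fun h => c1 h.1), zero_mul, zero_smul]
        have e1 : opx g R r l sg ((j, d), (⟨l j u, hlt⟩, sg j u)) u = 0 :=
          if_neg (fun h => c1 h.2.2)
        rw [e1, zero_mul]
    · intro st _ hne
      unfold opx
      rw [if_neg, zero_mul]
      rintro ⟨b1, b2, -⟩
      apply hne
      exact Prod.ext (Fin.ext b1.symm) b2.symm
    · intro h; exact absurd (mem_univ _) h
  rw [Fintype.sum_bool, hst true, hst false, ← add_smul, ← add_mul]
  congr 2
  simp only [if_true, Bool.false_eq_true, if_false]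
  exact coef _ _ _ _ (hL.adj j u v huv) (hL.adj j v u huv.symm) (hL.sgn j u v huv)

end one

end MP051125H69
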