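import Mathlib
import Pool.Agent.Lib.MP_051125_co_h83.Defs
import Pool.Agent.Lib.MP_051125_co_h83.OddWalk
import Pool.Agent.Lib.MP_051125_co_h83.Lab
import Pool.Agent.Lib.MP_051125_co_h69.Norm
import Pool.Agent.Lib.MP_051125_co_h69.Clif
import Pool.Agent.Lib.MP_051125_co_h69.One

/-!
# A polynomial upper bound
-/

namespace MP051125H69

open Finset MP051125H83

/-- `D` clusterings such that every vertex has full level in one of them. -/
lemma exists_labels {V : Type*} [Fintype V] (G : SimpleGraph V) {L s : ℕ}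
    (hG : NoShortOdd G (2 * (L * (2 * s + 1)) + 1)) (hs : 2 ^ s * Fintype.card V < 3 ^ s) :
    ∀ (D : ℕ) (W : Finset V), W.card < 2 ^ D → ∃ (l : Fin D → V → ℕ) (sg : Fin D → V → Bool),
      (∀ j, Lab G L (l j) (sg j)) ∧ ∀ u ∈ W, ∃ j, l j u = L := by
  classical
  intro D
  induction D with
  | zero =>
    intro W hW
    have : W = ∅ := by
      rw [← Finset.card_eq_zero]; omega
    refine ⟨fun _ _ => 0, fun _ _ => false, fun j => j.elim0, ?_⟩
    rw [this]; simp
  | succ D ih =>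
    intro W hW
    obtain ⟨l0, sg0, h0, hc⟩ := exists_lab G hG hs W
    obtain ⟨l, sg, h1, h2⟩ := ih (W.filter fun u => l0 u ≠ L) (by
      rw [pow_succ] at hW
      have : (W.filter fun u => l0 u ≠ L).card * 2 < 2 ^ D * 2 := by
        calc _ = 2 * (W.filter fun u => l0 u ≠ L).card := mul_comm _ _
          _ ≤ W.card := by convert hc
          _ < _ := hW
      omega)
    refine ⟨Fin.cons l0 l, Fin.cons sg0 sg, fun j => ?_, fun u hu => ?_⟩
    · refine Fin.cases ?_ (fun j => ?_) j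
      · simpa using h0
      · simpa using h1 j
    · by_cases h : l0 u = L
      · exact ⟨0, by simpa using h⟩
      · obtain ⟨j, hj⟩ := h2 u (mem_filter.2 ⟨hu, h⟩)
        exact ⟨j.succ, by simpa using hj⟩

lemma exists_labD {V : Type*} [Fintype V] (G : SimpleGraph V) {R s D : ℕ}
    (hG : NoShortOdd G (2 * ((R + 1) * (2 * s + 1)) + 1)) (hs : 2 ^ s * Fintype.card V < 3 ^ s)
    (hD : Fintype.card V < 2 ^ D) :
    ∃ (l : Fin D → V → ℕ) (sg : Fin D → V → Bool), LabD G R l sg := by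
  obtain ⟨l, sg, h1, h2⟩ := exists_labels G hG hs D univ (by rwa [card_univ])
  exact ⟨l, sg, ⟨fun j => (h1 j).le, fun j => (h1 j).adj, fun j => (h1 j).sgn,
    fun u => h2 u (mem_univ u)⟩⟩

section sys

variable {V : Type*} [Fintype V] {ι : Type*} [Fintype ι] [DecidableEq ι] {D : ℕ}

/-- The generators for the graph `i`. -/
noncomputable def gg (i : ι) : Fin D → Module.End ℝ (HH ι D) := fun j => gm (i, j)

lemma gg_sq (i : ι) (j : Fin D) : (gg i j : Module.End ℝ (HH ι D)) * gg i j = 1 := gm_sq _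

lemma gg_anti (i : ι) (j k : Fin D) (h : j ≠ k) :
    (gg i j : Module.End ℝ (HH ι D)) * gg i k + gg i k * gg i j = 0 :=
  gm_anti rfl fun h' => h (congrArg Prod.snd h')

lemma gg_symm (i : ι) (j : Fin D) (ξ η : HH ι D) :
    inner ℝ (gg i j ξ) η = inner ℝ ξ (gg i j η) := gm_symm _ _ _

/-- The algebra of the graph `i`. -/
noncomputable def alg (D : ℕ) (i : ι) : Subalgebra ℝ (Module.End ℝ (HH ι D)) :=
  Algebra.adjoin ℝ (Set.range (gg i : Fin D → Module.End ℝ (HH ι D)))

lemma gg_mem (i : ι) (j : Fin D) : gg i j ∈ alg D i := Algebra.subset_adjoin ⟨j, rfl⟩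

lemma cl_mem (i : ι) (a : Fin D → ℝ) : cl (gg i) a ∈ alg D i :=
  sum_mem fun j _ => Subalgebra.smul_mem _ (gg_mem i j) _

lemma alg_comm (i j : ι) (hij : i ≠ j) : ∀ p ∈ alg D i, ∀ q ∈ alg D j, Commute p q := by
  intro p hp q hq
  refine Algebra.commute_of_mem_adjoin_of_forall_mem_commute hq ?_
  rintro _ ⟨k, rfl⟩
  refine (Algebra.commute_of_mem_adjoin_of_forall_mem_commute hp ?_).symm
  rintro _ ⟨k', rfl⟩
  exact gm_comm hij.symm

/-- The system attached to a family of graphs with labels. -/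
noncomputable def mkSys (G : ι → SimpleGraph V) {R : ℕ} (hR : 1 ≤ R) {φ : ℝ}
    (hφ : 2 * D / (R : ℝ) ≤ φ) (l : ι → Fin D → V → ℕ) (sg : ι → Fin D → V → Bool)
    (hL : ∀ i, LabD (G i) R (l i) (sg i)) : Sys G (HH ι D) (Kp D R) φ where
  A := alg D
  a i := opa (gg i) (l i)
  c i := opc (gg i) (l i) (sg i)
  x i := opx (gg i) R (√(1 / (2 * R))) (l i) (sg i)
  y i := opy (gg i) R (√(1 / (2 * R))) (l i) (sg i)
  comm := alg_comm
  ha i u := Subalgebra.smul_mem _ (cl_mem i _) _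
  hc i u := Subalgebra.smul_mem _ (cl_mem i _) _
  hx i k u := by
    unfold opx
    split_ifs
    · exact Subalgebra.smul_mem _ (sub_mem (cl_mem i _) (Subalgebra.smul_mem _ (cl_mem i _) _)) _
    · exact zero_mem _
  hy i k u := by
    unfold opy
    by_cases h : Py R (l i) (sg i) k.1.1 k.1.2 k.2 u
    · rw [if_pos h]; exact Subalgebra.smul_mem _ (gg_mem i _) _
    · rw [if_neg h]; exact zero_mem _
  sa i u ξ η := opa_symm (gg_symm i) u ξ η
  sc i u ξ η := opc_symm (gg_symm i) u ξ η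
  sx i k u ξ η := opx_symm (gg_symm i) k u ξ η
  diagT i u := op_diag (gg_sq i) (gg_anti i) hR (hL i) u
  diagM i u := sum_eq_zero fun k _ => op_diagM k u
  edge i u v h := by
    refine op_edge ?_ hR (hL i) (gg_sq i) (gg_anti i) u v h
    have : (0 : ℝ) < R := by exact_mod_cast hR
    exact (Real.sqrt_pos.2 (by positivity)).ne'
  indx i k u v hu hv := opx_ind (hL i) k u v hu hv
  indy i k u v hu hv := opy_ind (hL i) k u v hu hv
  bx i u ξ := by
    have h0 : (0 : ℝ) < R := by exact_mod_cast hR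
    refine (opx_bound (gg_sq i) (gg_anti i) (gg_symm i) hR (hL i) u ξ).trans ?_
    apply mul_le_mul_of_nonneg_right _ (sq_nonneg _)
    rw [Real.sq_sqrt (by positivity)]
    refine le_trans (le_of_eq ?_) hφ
    field_simp
    ring
  by_ i u ξ := by
    have h0 : (0 : ℝ) < R := by exact_mod_cast hR
    refine (opy_bound (gg_sq i) (gg_symm i) hR (Real.sqrt_pos.2 (by positivity)) (hL i) u ξ).trans ?_
    apply mul_le_mul_of_nonneg_right _ (sq_nonneg _)
    rw [Real.sq_sqrt (by positivity)]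
    refine le_trans (le_of_eq ?_) hφ
    field_simp

/-- The main theorem. -/
theorem card_le_two_pow (G : ι → SimpleGraph V) (hcov : ∀ u v, u ≠ v → ∃ i, (G i).Adj u v)
    {R s D : ℕ} (hR : 1 ≤ R) (hG : ∀ i, NoShortOdd (G i) (2 * ((R + 1) * (2 * s + 1)) + 1))
    (hs : 2 ^ s * Fintype.card V < 3 ^ s) (hD : Fintype.card V < 2 ^ D)
    (hn : (1 + 2 * D / (R : ℝ)) ^ Fintype.card ι < 3 / 2) :
    Fintype.card V ≤ 2 ^ Fintype.card ι := by
  choose l sg hL using fun i => exists_labD (G i) (hG i) hs hD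
  refine (mkSys G hR le_rfl l sg hL).card_le (by positivity) hn (Finset.nodup_toList univ)
    (by rw [Finset.length_toList, card_univ]) ?_
  intro u _ v _ huv
  obtain ⟨i, hi⟩ := hcov u v huv
  exact ⟨i, by simp, hi⟩

end sys

lemma pow_aux {n : ℕ} (hn : 1 ≤ n) :
    (1 + 2 * ((n + 1 : ℕ) : ℝ) / ((5 * n * (n + 1) : ℕ) : ℝ)) ^ n < 3 / 2 := by
  have h0 : (0 : ℝ) < n := by exact_mod_cast hn
  have h1 : 2 * ((n + 1 : ℕ) : ℝ) / ((5 * n * (n + 1) : ℕ) : ℝ) = 2 / (5 * n) := by
    push_cast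
    field_simp
  rw [h1]
  have h2 : 1 + 2 / (5 * (n : ℝ)) ≤ Real.exp (2 / (5 * n)) := by
    rw [add_comm]; exact Real.add_one_le_exp _
  calc (1 + 2 / (5 * (n : ℝ))) ^ n ≤ Real.exp (2 / (5 * n)) ^ n := by gcongr
    _ = Real.exp (2 / 5) := by
        rw [← Real.exp_nat_mul]; congr 1; field_simp
    _ < 3 / 2 := by
        have h3 : Real.exp 1 < 2.7182818286 := Real.exp_one_lt_d9
        have h4 : Real.exp (2 / 5) ^ 5 = Real.exp 1 ^ 2 := by
          rw [← Real.exp_nat_mul, ← Real.exp_nat_mul]; congr 1; norm_num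
        by_contra hcon
        push Not at hcon
        have h5 : (3 / 2 : ℝ) ^ 5 ≤ Real.exp (2 / 5) ^ 5 := by gcongr
        have h6 : Real.exp 1 ^ 2 < 2.7182818286 ^ 2 := by
          have := Real.exp_pos 1
          gcongr
        rw [h4] at h5
        norm_num at h5 h6
        linarith

lemma four_nine {n : ℕ} (hn : 1 ≤ n) : 2 * (4 : ℕ) ^ n < 9 ^ n := by
  induction n, hn using Nat.le_induction with
  | base => norm_num
  | succ k _ ih =>
    rw [pow_succ, pow_succ]
    omega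

/-- The bound. -/
def Bn (n : ℕ) : ℕ := 40 * n ^ 3 + 70 * n ^ 2 + 38 * n + 7

theorem oddCycleAtMost_Bn (n : ℕ) : OddCycleAtMost n (Bn n) := by
  rcases Nat.eq_zero_or_pos n with h0 | hn
  · subst h0
    intro c
    exact (c s(0, 0)).elim0
  intro c
  by_contra hcon
  push Not at hcon
  have key := card_le_two_pow (V := Fin (2 ^ n + 1)) (ι := Fin n) (fun i => colourGraph c i)
    (R := 5 * n * (n + 1)) (s := 2 * n + 1) (D := n + 1) ?_ ?_ ?_ ?_ ?_ ?_
  · rw [Fintype.card_fin, Fintype.card_fin] at key; omega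
  · intro u v huv
    exact ⟨c s(u, v), huv, rfl⟩
  · have : 1 ≤ n * (n + 1) := Nat.mul_pos hn (by omega)
    nlinarith
  · intro i v w hw
    obtain ⟨x, w', hc, hodd, hle⟩ := exists_odd_cycle_of_odd_closed_walk w hw
    have h1 := hcon i x w' hc hodd
    have h2 : 2 * ((5 * n * (n + 1) + 1) * (2 * (2 * n + 1) + 1)) + 1 = Bn n := by
      unfold Bn; ring
    rw [h2]
    exact lt_of_lt_of_le h1 hle
  · rw [Fintype.card_fin]
    have e1 : (2 : ℕ) ^ (2 * n + 1) * (2 ^ n + 1) = 2 * 8 ^ n + 2 * 4 ^ n := by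
      have a : (8 : ℕ) ^ n = 4 ^ n * 2 ^ n := by rw [← mul_pow]; norm_num
      rw [pow_succ, pow_mul, a]
      norm_num
      ring
    have e2 : (3 : ℕ) ^ (2 * n + 1) = 3 * 9 ^ n := by
      rw [pow_succ, pow_mul]; norm_num; ring
    have e3 : (8 : ℕ) ^ n ≤ 9 ^ n := Nat.pow_le_pow_left (by norm_num) n
    have e4 := four_nine hn
    rw [e1, e2]; omega
  · rw [Fintype.card_fin, pow_succ]
    have : 2 ≤ 2 ^ n := by
      calc 2 = 2 ^ 1 := rfl
        _ ≤ 2 ^ n := Nat.pow_le_pow_right (by norm_num) hn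
    omega
  · rw [Fintype.card_fin]
    exact pow_aux hn

end MP051125H69
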